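import Pool.Agent.W601.RP.Stm2

set_option autoImplicit false

/-! RP-CIR: elementary facts on the circle. -/

namespace Pool.Agent.W899.RP

open Pool.Agent.W601.RP

theorem nA (r : ℝ) (h : |r| ≤ 1 / 2) : ‖(r : TT)‖ = |r| := by
  have := (AddCircle.norm_coe_eq_abs_iff (p := (1 : ℝ)) (x := r) one_ne_zero).2 (by
    rw [abs_one]
    exact h)
  exact this

theorem nLe (r : ℝ) : ‖(r : TT)‖ ≤ |r| := by
  by_cases h : |r| ≤ 1 / 2
  · exact (nA r h).le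
  · have h1 : ‖(r : TT)‖ ≤ 1 / 2 := by
      rw [UnitAddCircle.norm_eq]
      exact abs_sub_round r
    linarith

theorem nB (r : ℝ) (h1 : 1 / 4 ≤ r) (h2 : r ≤ 3 / 4) : 1 / 4 ≤ ‖(r : TT)‖ := by
  rw [UnitAddCircle.norm_eq]
  by_cases h : round r ≤ 0
  · have h' : ((round r : ℤ) : ℝ) ≤ 0 := by exact_mod_cast h
    have h3 := le_abs_self (r - round r)
    linarith
  · have h' : (1 : ℝ) ≤ ((round r : ℤ) : ℝ) := by
      have : 1 ≤ round r := by omega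
      exact_mod_cast this
    have h3 := neg_abs_le (r - round r)
    linarith

theorem rep (y : TT) : ∃ r : ℝ, |r| ≤ 1 / 2 ∧ y = (r : TT) := by
  obtain ⟨x, rfl⟩ := QuotientAddGroup.mk_surjective y
  refine ⟨x - round x, abs_sub_round x, ?_⟩
  have h : ((x - round x : ℝ) : TT) = (x : TT) - ((round x : ℝ) : TT) := rfl
  have h0 : (((round x : ℤ) : ℝ) : TT) = 0 := by
    rw [AddCircle.coe_eq_zero_iff]
    exact ⟨round x, by simp⟩
  rw [h, h0, sub_zero]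

theorem two (y : TT) (m0 : ℕ) (h0 : 1 ≤ m0) (h : ∀ m : ℕ, 1 ≤ m → m ≤ m0 → ‖m • y‖ < 1 / 4) :
    ‖y‖ ≤ 1 / (4 * (m0 : ℝ)) := by
  obtain ⟨r, hr, rfl⟩ := rep y
  rw [nA r hr]
  by_contra hlt
  rw [not_le] at hlt
  have hm0 : (0 : ℝ) < m0 := by exact_mod_cast h0
  rw [div_lt_iff₀ (by positivity)] at hlt
  classical
  have hex : ∃ m : ℕ, 1 / 4 ≤ (m : ℝ) * |r| := ⟨m0, by nlinarith⟩
  set m := Nat.find hex with hm
  have hm1 : 1 / 4 ≤ (m : ℝ) * |r| := Nat.find_spec hex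
  have hmle : m ≤ m0 := Nat.find_min' hex (by nlinarith)
  have hmpos : 1 ≤ m := by
    by_contra hc
    have : m = 0 := by omega
    rw [this] at hm1
    norm_num at hm1
  have hmin : ((m - 1 : ℕ) : ℝ) * |r| < 1 / 4 := by
    have := Nat.find_min hex (m := m - 1) (by omega)
    rw [not_le] at this
    exact this
  rw [Nat.cast_sub hmpos, Nat.cast_one] at hmin
  have hsm : ∀ k : ℕ, k • (r : TT) = (((k : ℝ) * r : ℝ) : TT) := by
    intro k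
    rw [← nsmul_eq_mul]
    rfl
  by_cases hd : 1 / 4 ≤ |r|
  · have h1 := h 1 le_rfl h0
    rw [one_nsmul, nA r hr] at h1
    linarith
  · rw [not_le] at hd
    have h1 := h m hmpos hmle
    rw [hsm, nA] at h1
    · rw [abs_mul, Nat.abs_cast] at h1
      linarith
    · rw [abs_mul, Nat.abs_cast]
      linarith

theorem one (y : TT) (h : ∀ m : ℕ, ‖m • y‖ < 1 / 4) : y = 0 := by
  have h1 : ∀ m0 : ℕ, 1 ≤ m0 → ‖y‖ ≤ 1 / (4 * (m0 : ℝ)) :=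
    fun m0 hm0 => two y m0 hm0 (fun m _ _ => h m)
  rw [← norm_eq_zero]
  by_contra hne
  have hpos : 0 < ‖y‖ := lt_of_le_of_ne (norm_nonneg _) (Ne.symm hne)
  obtain ⟨n, hn⟩ := exists_nat_gt (1 / ‖y‖)
  have h2 := h1 (n + 1) (by omega)
  rw [div_lt_iff₀ hpos] at hn
  rw [le_div_iff₀ (by positivity)] at h2
  push_cast at h2
  nlinarith

/-- The norm of an integer multiple. -/
theorem zs (κ : ℤ) (x : ℝ) : ‖κ • (x : TT)‖ = ‖(((|(κ : ℝ)| * x : ℝ)) : TT)‖ := by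
  have e : κ • (x : TT) = (((κ : ℝ) * x : ℝ) : TT) := by
    rw [← zsmul_eq_mul]
    rfl
  rw [e]
  rcases abs_cases (κ : ℝ) with ⟨h, -⟩ | ⟨h, -⟩
  · rw [h]
  · rw [h]
    have e2 : ((-(κ : ℝ) * x : ℝ) : TT) = -(((κ : ℝ) * x : ℝ) : TT) := by
      rw [neg_mul]
      rfl
    rw [e2, norm_neg]

/-- The choice `a = ⌈n / (4 |κ|)⌉`. -/
theorem cho (n : ℕ) (κ : ℤ) (hn : 1 ≤ n) (hκ : κ ≠ 0) (h1 : -(n : ℤ) < 2 * κ)
    (h2 : 2 * κ ≤ n) : ∃ a : ℕ, (a : ℝ) / n ≤ 1 / (4 * |(κ : ℝ)|) + 1 / n ∧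
      (a : ℝ) < (n : ℝ) / (4 * |(κ : ℝ)|) + 1 ∧
      1 / 4 ≤ ‖κ • ((((a : ℝ) / (n : ℝ)) : ℝ) : TT)‖ := by
  have hn0 : (0 : ℝ) < n := by exact_mod_cast hn
  have hk1 : 1 ≤ |(κ : ℝ)| := by
    have : 1 ≤ |κ| := Int.one_le_abs hκ
    exact_mod_cast this
  have hk2 : 2 * |(κ : ℝ)| ≤ n := by
    have : 2 * |κ| ≤ n := by
      rcases abs_cases κ with ⟨h, -⟩ | ⟨h, -⟩ <;> omega
    exact_mod_cast this
  set k : ℝ := |(κ : ℝ)| with hk
  have hk0 : 0 < k := by linarith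
  have hlt : ((⌈(n : ℝ) / (4 * k)⌉₊ : ℕ) : ℝ) < (n : ℝ) / (4 * k) + 1 :=
    Nat.ceil_lt_add_one (by positivity)
  have hge : (n : ℝ) / (4 * k) ≤ ((⌈(n : ℝ) / (4 * k)⌉₊ : ℕ) : ℝ) := Nat.le_ceil _
  refine ⟨⌈(n : ℝ) / (4 * k)⌉₊, ?_, hlt, ?_⟩
  · rw [div_le_iff₀ hn0]
    have e : (1 / (4 * k) + 1 / (n : ℝ)) * n = (n : ℝ) / (4 * k) + 1 := by
      field_simp
    rw [e]
    exact hlt.le
  · rw [zs, ← hk]
    set a : ℝ := ((⌈(n : ℝ) / (4 * k)⌉₊ : ℕ) : ℝ) with ha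
    apply nB
    · have e : (1 : ℝ) / 4 = k * (((n : ℝ) / (4 * k)) / n) := by
        field_simp
      rw [e]
      exact mul_le_mul_of_nonneg_left (div_le_div_of_nonneg_right hge hn0.le) hk0.le
    · have e : k * (((n : ℝ) / (4 * k) + 1) / n) = 1 / 4 + k / n := by
        field_simp
      have h3 : k * (a / n) ≤ k * (((n : ℝ) / (4 * k) + 1) / n) :=
        mul_le_mul_of_nonneg_left (div_le_div_of_nonneg_right hlt.le hn0.le) hk0.le
      have h4 : k / n ≤ 1 / 2 := by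
        rw [div_le_iff₀ hn0]
        linarith
      linarith

theorem three (n : ℕ) (κ : ℤ) (δ : ℝ) (hδ : 0 < δ) (hδ2 : δ ≤ 1 / 2) (hn : 8 ≤ δ * n)
    (hκ : κ ≠ 0) (h1 : -(n : ℤ) < 2 * κ) (h2 : 2 * κ ≤ n) :
    ∃ a : ℕ, a < n ∧ ‖((((a : ℝ) / (n : ℝ)) : ℝ) : TT)‖ ≤ δ ∧
      δ / 2 ≤ ‖κ • ((((a : ℝ) / (n : ℝ)) : ℝ) : TT)‖ := by
  have hn0 : (0 : ℝ) < n := by
    by_contra hc
    rw [not_lt] at hc
    nlinarith
  have hn1 : 1 ≤ n := by exact_mod_cast hn0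
  have hk1 : 1 ≤ |(κ : ℝ)| := by
    have : 1 ≤ |κ| := Int.one_le_abs hκ
    exact_mod_cast this
  by_cases hkd : |(κ : ℝ)| * δ ≤ 1 / 2
  · set k : ℝ := |(κ : ℝ)| with hk
    have hle : ((⌊δ * n⌋₊ : ℕ) : ℝ) ≤ δ * n := Nat.floor_le (by positivity)
    have hgt : δ * n < ((⌊δ * n⌋₊ : ℕ) : ℝ) + 1 := Nat.lt_floor_add_one _
    set a : ℕ := ⌊δ * n⌋₊ with ha
    have ha0 : (0 : ℝ) ≤ (a : ℝ) / n := by positivity
    have ha1 : (a : ℝ) / n ≤ δ := by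
      rw [div_le_iff₀ hn0]
      exact hle
    have ha2 : δ / 2 ≤ (a : ℝ) / n := by
      rw [le_div_iff₀ hn0]
      linarith
    refine ⟨a, ?_, ?_, ?_⟩
    · have : (a : ℝ) < n := by nlinarith
      exact_mod_cast this
    · rw [nA _ (by rw [abs_of_nonneg ha0]; linarith), abs_of_nonneg ha0]
      exact ha1
    · rw [zs, ← hk]
      have hb0 : 0 ≤ k * ((a : ℝ) / n) := by positivity
      have hb1 : k * ((a : ℝ) / n) ≤ k * δ := mul_le_mul_of_nonneg_left ha1 (by linarith)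
      rw [nA _ (by rw [abs_of_nonneg hb0]; linarith), abs_of_nonneg hb0]
      nlinarith
  · rw [not_le] at hkd
    obtain ⟨a, c1, c2, c3⟩ := cho n κ hn1 hκ h1 h2
    set k : ℝ := |(κ : ℝ)| with hk
    have hk0 : 0 < k := by linarith
    have h3 : 1 / (4 * k) ≤ δ / 2 := by
      rw [div_le_iff₀ (by positivity)]
      nlinarith
    have h4 : 1 / (n : ℝ) ≤ δ / 8 := by
      rw [div_le_iff₀ hn0]
      linarith
    have h5 : (a : ℝ) / n ≤ 5 / 8 * δ := by linarith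
    refine ⟨a, ?_, ?_, ?_⟩
    · rw [div_le_iff₀ hn0] at h5
      have : (a : ℝ) < n := by nlinarith
      exact_mod_cast this
    · refine (nLe _).trans ?_
      rw [abs_of_nonneg (by positivity)]
      linarith
    · linarith

theorem four (n : ℕ) (κ : ℤ) (hn : 2 ≤ n)
    (hκ : κ ≠ 0) (h1 : -(n : ℤ) < 2 * κ) (h2 : 2 * κ ≤ n) :
    ∃ a : ℕ, a < n ∧
      ‖((((a : ℝ) / (n : ℝ)) : ℝ) : TT)‖ ≤ 1 / (4 * |(κ : ℝ)|) + 1 / (n : ℝ) ∧
      1 / 4 ≤ ‖κ • ((((a : ℝ) / (n : ℝ)) : ℝ) : TT)‖ := by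
  have hn0 : (0 : ℝ) < n := by
    have : 0 < n := by omega
    exact_mod_cast this
  have hk1 : 1 ≤ |(κ : ℝ)| := by
    have : 1 ≤ |κ| := Int.one_le_abs hκ
    exact_mod_cast this
  obtain ⟨a, c1, c2, c3⟩ := cho n κ (by omega) hκ h1 h2
  refine ⟨a, ?_, ?_, c3⟩
  · have h3 : (n : ℝ) / (4 * |(κ : ℝ)|) ≤ (n : ℝ) / 4 :=
      div_le_div_of_nonneg_left hn0.le (by norm_num) (by linarith)
    have h4 : (a : ℝ) < (n : ℝ) / 4 + 1 := by linarith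
    have h5 : 4 * a < n + 4 := by
      have : (4 : ℝ) * a < n + 4 := by linarith
      exact_mod_cast this
    omega
  · refine (nLe _).trans ?_
    rw [abs_of_nonneg (by positivity)]
    exact c1

theorem five (n : ℕ) (y : TT) (hn : 1 ≤ n) (h : n • y = 0) :
    ∃ a : ℕ, a < n ∧ y = ((((a : ℝ) / (n : ℝ)) : ℝ) : TT) := by
  have hn0 : (0 : ℝ) < n := by exact_mod_cast hn
  obtain ⟨x, rfl⟩ := QuotientAddGroup.mk_surjective y
  have hx : (x : TT) = ((Int.fract x : ℝ) : TT) := by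
    have h1 : ((Int.fract x : ℝ) : TT) = (x : TT) - ((⌊x⌋ : ℝ) : TT) := rfl
    have h0 : (((⌊x⌋ : ℤ) : ℝ) : TT) = 0 := by
      rw [AddCircle.coe_eq_zero_iff]
      exact ⟨⌊x⌋, by simp⟩
    rw [h1, h0, sub_zero]
  have h' : n • (x : TT) = 0 := h
  rw [hx] at h'
  have e : n • ((Int.fract x : ℝ) : TT) = (((n : ℝ) * Int.fract x : ℝ) : TT) := by
    rw [← nsmul_eq_mul]
    rfl
  rw [e, AddCircle.coe_eq_zero_iff] at h'
  obtain ⟨m, hm⟩ := h'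
  rw [zsmul_eq_mul, mul_one] at hm
  have hf0 := Int.fract_nonneg x
  have hf1 := Int.fract_lt_one x
  have hm0 : 0 ≤ m := by
    have : (0 : ℝ) ≤ m := by
      rw [hm]
      positivity
    exact_mod_cast this
  have hm1 : m < n := by
    have : (m : ℝ) < n := by
      rw [hm]
      nlinarith
    exact_mod_cast this
  refine ⟨m.toNat, by omega, ?_⟩
  have hmc : ((m.toNat : ℕ) : ℝ) = (m : ℝ) := by
    have : ((m.toNat : ℕ) : ℤ) = m := Int.toNat_of_nonneg hm0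
    exact_mod_cast this
  show (x : TT) = _
  rw [hx, hmc, hm]
  congr 1
  field_simp

theorem cir : S_CIR := ⟨one, two, three, four, five⟩

end Pool.Agent.W899.RP
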